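import Pool.Agent.Work.MP_a69bcc_pr.Final

set_option autoImplicit false

namespace Pool.Agent.Results.MP_a69bcc_pr.NoCycle

open Pool.Agent.Work.MPa69bcc

/-- There are `s ≥ 2` and a full-support, non-uniform probability vector `p` on `s` letters such
that no three nonempty finite words `A, B, C` satisfy `Pr(A > B), Pr(B > C), Pr(C > A) > 1/2`. -/
theorem result :
    ∃ (s : ℕ) (p : Fin s → ℝ), 2 ≤ s ∧ (∀ i, 0 < p i) ∧ ∑ i, p i = 1 ∧ (∃ i, p i ≠ 1 / (s : ℝ)) ∧
      ∀ A B C : List (Fin s), A ≠ [] → B ≠ [] → C ≠ [] →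
        ¬ (1 / 2 < race p A B ∧ 1 / 2 < race p B C ∧ 1 / 2 < race p C A) := by
  obtain ⟨t, h0, h1, hgood⟩ := exists_good
  have hNN : 1 ≤ NN := by unfold NN; norm_num
  have hN := NN_pos
  have hpos : 0 < 2 * NN := by omega
  let d : Fin (2 * NN) := ⟨0, hpos⟩
  refine ⟨2 * NN, pt t, by omega, pt_pos h0.le h1.le, sum_pt t, ⟨d, ?_⟩, ?_⟩
  · have e : pt t d = (1 - t) / (2 * NN) := by
      unfold pt q
      have : (d.val < NN) := by
        show 0 < NN
        omega
      simp [this]
    rw [e]
    push_cast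
    intro h
    rw [div_eq_div_iff (by positivity) (by positivity)] at h
    nlinarith
  · intro A B C hA hB hC ⟨hab, hbc, hca⟩
    have key : ∀ X Y : List (Fin (2 * NN)), X ≠ [] → Y ≠ [] → 1 / 2 < race (pt t) X Y →
        WT.mu X.length (rw' (pt t) X.length (lt d X))
          < WT.mu Y.length (rw' (pt t) Y.length (lt d Y)) := by
      intro X Y hX hY h
      have hX1 : 1 ≤ X.length := List.length_pos_iff.2 hX
      have hY1 : 1 ≤ Y.length := List.length_pos_iff.2 hY
      by_contra hcon
      push Not at hcon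
      have h3 := sign_le h0 h1 hgood hX1 hY1 (lt d X) (lt d Y) hcon
      rw [race_eq (pt_pos h0.le h1.le) (sum_pt t) d (wt_pt h0.le h1.le (lt d X) hX1)
        (wt_pt h0.le h1.le (lt d Y) hY1)] at h
      linarith
    have k1 := key A B hA hB hab
    have k2 := key B C hB hC hbc
    have k3 := key C A hC hA hca
    linarith

end Pool.Agent.Results.MP_a69bcc_pr.NoCycle
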